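import Pool.Agent.P.MP_a5be26_lc.Sep.B4

namespace Pool.Agent.Results.MP_a5be26_lc.Separation

open Pool.Agent.Lib.Helper87 Pool.Agent.P.MP_a5be26_lc

theorem result : ∃ (M : Set ZFSet.{0}) (k1 k2 k3 : ZFSet.{0}), TransModelZFC M ∧
    SuccCard M ZFSet.omega k1 ∧ SuccCard M k1 k2 ∧ SuccCard M k2 k3 ∧
    CardLE M (power M ZFSet.omega) k1 ∧ CardLE M (power M k1) k2 ∧ CardLE M (power M k2) k3 ∧
    (∃ T, Kurepa M k1 k2 k3 T ∧ ∃ f ∈ M, ZFSet.IsFunc (baire M k2) (branches M k2 T) f ∧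
      P.MP_a5be26_lc.Cont k2 f ∧ ∀ y ∈ branches M k2 T, ∃ x, ZFSet.pair x y ∈ f) ∧
    (∀ S, Thin M k1 k2 S → ∀ f ∈ M, ZFSet.IsFunc (baire M k2) (branches M k2 S) f →
      P.MP_a5be26_lc.Cont k2 f →
      CardLE M (ZFSet.sep (fun y => ZFSet.pair y y ∈ f) (branches M k2 S)) k2) ∧
    ∀ S, Kurepa M k1 k2 k3 S → ¬ ∃ f ∈ M, ZFSet.IsFunc (baire M k2) (branches M k2 S) f ∧
      P.MP_a5be26_lc.Cont k2 f ∧ ∀ y ∈ branches M k2 S, ZFSet.pair y y ∈ f := by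
  obtain ⟨w, -, a1, a2, a3, a4, a5, a6, a7, a8, a9, a10⟩ :=
    exists_world ((default, Sep.Cond.top) : Sep.PC)
    (ev_zfc.and (ev_succ1.and (ev_succ2.and (ev_succ3.and (ev_CH.and (ev_power1.and (ev_power2.and
      (Sep.ev_image.and (Sep.ev_fix.and (ev_cardLE_trans kk))))))))))
  refine ⟨w.M, _, _, _, a1, a2, a3, a4, a5, a6, a7, a8, a9, fun T hT ⟨f, b1, b2, b3, b4⟩ => ?_⟩
  have h := a9 T hT.1 f b1 b2 b3
  have e : ZFSet.sep (fun y => ZFSet.pair y y ∈ f) (branches w.M (w.ord kk) T) =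
      branches w.M (w.ord kk) T :=
    ZFSet.ext fun y => ZFSet.mem_sep.trans ⟨fun h => h.1, fun h => ⟨h, b4 y h⟩⟩
  rw [e] at h
  exact a4.2.2.2.1 (a10 _ hT.2 h)

end Pool.Agent.Results.MP_a5be26_lc.Separation
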